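import Pool.Agent.Q58.LG.Bse

/-!
MP_813db1_ag, Q1, for Moishezon manifolds with a fibration such that `κ (base) ≥ 0` and the fibres
correspond, in small degree, to products of varieties over generic complete intersections and
varieties with `p_g > 0`: `K_X` is `ℚ`-effective, and `κ(X) ≥ κ(B)`.

Let `X` be a smooth projective variety of dimension `w`, with function field `K`, and `X ⇢ B` a
dominant rational map to a variety of dimension `β`, with function field `B`; the fibres can have any
Kodaira dimension. Let `X' ⇢ X` be a dominant generically finite rational map of degree `r`, with any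
ramification, where `X'` has the function field `E`, and let `X' ⇢ B × Y_1 × ... × Y_s` be a
generically finite dominant rational map over `B`, of any degree (the function fields `M i` of the
`Y_i`, of dimension `b i`, are subfields of `E`; `E` is algebraic over the field generated by `B` and
the `M i`, and `w = β + ∑ b i`). Let the `Y_i` be of one of the following kinds.

* `OverGeneric` (`Pool/Agent/Q58/LG/WdgP.lean`): `Y_i` has a generically finite rational map, with
  generic point `x i`, to a subvariety of dimension `b i` of a cyclic cover of a generic complete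
  intersection. Here `V` is a closed subset of `ℙⁿ` of dimension at most `m`, defined over the
  algebraic closure of `k` in `ℂ`, the `F_a` are forms of degrees `d_a` over `ℂ` whose coefficients
  are algebraically independent over `k`; `F_a (x) = 0` for `a` in a set `C`, and `F_a (x)` is a
  nonzero `q_a`-th power for the other `a`, where `q_a` divides `d_a`; and
  `2 m + r + ∑_{a ∉ C} d_a / q_a ≤ ∑ d_a + |C| + b i`.
* `p_g (Y_i) > 0` (`HasForm`), and `x i = 1`.

Assume that `E` is generated over `K` by the coordinates of the points `x i`. If `κ(B) ≥ h`, then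
`κ(X) ≥ h`. In particular, if `K_B` is `ℚ`-effective, then `K_X` is `ℚ`-effective and
pseudo-effective, and `X` is not uniruled.

It is not assumed that the fibration becomes trivial over a cover of `B`, or that the fibres of
`X ⇢ B` have maps to the `Y_i`. Only the traces of the forms of the fibres are used, so the fibres
need not be of general type, and need not have (good) minimal models.

`KodGe ℂ K w (fun _ => False) h` says that `κ(X) ≥ h` (`Pool/Agent/W602/GT/KDefs.lean`), `Psef` is in
`Pool/Agent/W602/GT/SpDefs.lean` and `IsUniruled` in `Pool/Agent/W619/PQ/Defs.lean`.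
-/

set_option autoImplicit false

namespace Pool.Agent.Results.MP_813db1_ag.FibrationCorrespondences

open FF
open Pool.Agent.W602.GT (KodGe Psef)
open Pool.Agent.W619.PQ (IsUniruled)
open Pool.Agent.Q58.LG (OverGeneric HasForm)

theorem result {k : Type} [Field k] [Algebra k ℂ]
    -- the function fields of `B`, `X` and `X'`
    {B K E : Type} [Field B] [Field K] [Field E] [Algebra ℂ B] [Algebra ℂ K] [Algebra ℂ E]
    [Algebra B K] [IsScalarTower ℂ B K] [Algebra K E] [IsScalarTower ℂ K E] [FiniteDimensional K E]
    [Algebra B E] [IsScalarTower ℂ B E] [IsScalarTower B K E]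
    [Algebra.EssFiniteType ℂ B] [Algebra.EssFiniteType ℂ K]
    {β w : ℕ} (hB : Algebra.trdeg ℂ B = β) (hK : Algebra.trdeg ℂ K = w)
    -- the map from `X'` to `B × Y_1 × ... × Y_s`
    {s : ℕ} {b n : Fin s → ℕ} (hw : w = β + ∑ i, b i) (M : Fin s → IntermediateField ℂ E)
    [∀ i, Algebra.EssFiniteType ℂ (M i)] (hM : ∀ i, Algebra.trdeg ℂ (M i) = b i)
    (halg : Algebra.IsAlgebraic
      ((IsScalarTower.toAlgHom ℂ B E).fieldRange ⊔ ⨆ i, M i : IntermediateField ℂ E) E)
    -- the points `x i`, and the kinds of factors
    (x : ∀ i, Fin (n i + 1) → M i) (j0 : ∀ i, Fin (n i + 1)) (hx1 : ∀ i, x i (j0 i) = 1)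
    (hgenK : IntermediateField.adjoin K (⋃ i, Set.range fun j => ((x i j : M i) : E)) = ⊤)
    (hx : ∀ i, OverGeneric k (Module.finrank K E) (M i) (b i) (x i) ∨
      ((∀ j, x i j = 1) ∧ HasForm (M i) (b i))) :
    (∀ h : ℕ, KodGe ℂ B β (fun _ => False) h → KodGe ℂ K w (fun _ => False) h) ∧
    (KodGe ℂ B β (fun _ => False) 0 →
      KodGe ℂ K w (fun _ => False) 0 ∧ Psef ℂ K w (fun _ => False) ∧ ¬ IsUniruled ℂ K w) := by
  have hr : 1 ≤ Module.finrank K E := Module.finrank_pos
  have hmany : ∀ i, Pool.Agent.Q58.LG.Many (M i) (b i) (Module.finrank K E - 1) (x i)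
      (fun _ => False) := by
    intro i
    rcases hx i with h1 | ⟨h1, h2⟩
    · refine Pool.Agent.Q58.LG.many_gen (k := k) (hM i) (hx1 i) ?_
      rwa [Nat.sub_add_cancel hr]
    · exact Pool.Agent.Q58.LG.many_form h1 h2
  have h1 : ∀ h : ℕ, KodGe ℂ B β (fun _ => False) h → KodGe ℂ K w (fun _ => False) h :=
    fun h hh => Pool.Agent.Q58.LG.base_dom hB hK hw hh M hM halg hx1 hgenK hmany (by omega)
  refine ⟨h1, fun hh => ?_⟩
  have h2 := h1 0 hh
  have h3 : Psef ℂ K w (fun _ => False) := Pool.Agent.W602.GT.psef_of_kodGe h2
  exact ⟨h2, h3, fun hu => (Pool.Agent.W619.Y.uniruled_neg w hK hu).1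
    ((Pool.Agent.TH466.QG.psef_iff w).1 h3)⟩

end Pool.Agent.Results.MP_813db1_ag.FibrationCorrespondences
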