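import Pool.Agent.H172.EI.Top

/-!
# Explicit plurigenera of quotients of products of hypersurfaces

Let `F i` be a form of degree `d i` in `n i + 1` variables whose zero set in the projective
`n i`-space is a smooth hypersurface, and let `H i` be the cyclic hypersurface `w ^ (d i) = F i` in
the projective `(n i + 1)`-space. Let `X` be a projective manifold which is birational to a quotient
`(H 1 × ... × H r) / G`, where `G` is any group of diagonal automorphisms
`w i ↦ ζ i * w i`, `ζ i ^ (d i) = 1`. Equivalently, the function field `K` of `X` is generated by the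
affine coordinates `x i j / x i 0` of the product of the projective `n i`-spaces and by roots `z j`,
`z j ^ (m j) = ∏ i, (F i (x i) / x i 0 ^ (d i)) ^ (a j i)`, where `m j` divides `a j i * d i`.

Let `D ≥ 1` be such that `d i` divides `D * (n i + 1)` for all `i` (for instance the least common
multiple of the `d i`), and let `κ` be the sum of the `n i` over the factors `i ∈ big`: those with
`v i = 0` for all admissible `v` of weight one. (The vectors `v ≠ 0` of nonnegative integers with
`m j ∣ ∑ i, a j i * v i` for all `j` are the admissible ones; they are the multiplicities of the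
hypersurfaces along the divisors over `X`. The weight of `v` is `∑ i, (1 - (n i + 1) / d i) * v i`.)

The theorem: if `K_X` is pseudo-effective then, for all `j ≥ 0`,

`P_{j D} (X) ≥ ∏ i ∈ big, (n i + ⌊j / (D + 1)⌋).choose (n i)`;

in particular `P_{j D} (X) ≥ 1` for all `j`. This lower bound has the right order of growth: for every
divisor `A` there is a constant `C` with `h⁰ (m K_X + A) ≤ C m ^ κ` for all `m ≥ 1`. Moreover for
`j ≥ D + 1` there are sections of `j D K_X` whose ratios contain `κ` algebraically independent
functions, so that the `j D`-canonical map of `X` has an image of dimension `κ = κ (X) = ν (X)`: up to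
a generically finite map it is the Iitaka fibration. These numbers depend on `D` only, and not on the
dimension, the forms `F i` or the group `G`.

Sections of `m K_X + A` are functions of `N = dim X` rational vector fields, with a condition at all
divisorial places of `K`, so that they are the sections on every smooth projective model of `K`.
-/

set_option autoImplicit false

open FF MvPolynomial Pool.Agent.W602.GT

namespace Pool.Agent.Results.MP_813db1_ag.HypersurfacePlurigenera

/-- The form `F` has no singular zeros: its partial derivatives have no common zero but `0`. -/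
def Smooth {n : ℕ} (F : MvPolynomial (Fin (n + 1)) ℂ) : Prop :=
  ∀ x : Fin (n + 1) → ℂ, x ≠ 0 → ∃ l, eval x (pderiv l F) ≠ 0

/-- The affine coordinates of the product of the projective spaces. -/
noncomputable def affine {r : ℕ} {n : Fin r → ℕ} {K : Type} [Field K]
    (x : ∀ i, Fin (n i + 1) → K) (b : (i : Fin r) × Fin (n i)) : K :=
  x b.1 b.2.succ / x b.1 0

section

variable {r R : ℕ}

/-- The multiplicities which satisfy the divisibility conditions. -/
def Admissible (m : Fin R → ℕ) (a : Fin R → Fin r → ℕ) (v : Fin r → ℕ) : Prop :=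
  v ≠ 0 ∧ ∀ j, m j ∣ ∑ i, a j i * v i

/-- The weight `∑ i, (1 - (n i + 1) / d i) * v i`. -/
def weight (n d v : Fin r → ℕ) : ℚ := ∑ i, (1 - ((n i : ℚ) + 1) / d i) * v i

open Classical in
/-- The factors `i` such that `v i = 0` for all admissible `v` of weight one. -/
noncomputable def big (m : Fin R → ℕ) (a : Fin R → Fin r → ℕ) (n d : Fin r → ℕ) : Finset (Fin r) :=
  Finset.univ.filter fun i => ∀ v, Admissible m a v → weight n d v = 1 → v i = 0

end

section sections

/-- `ω` is a section of `m K_X + j A`: a rational section of the `m`-th power of the canonical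
bundle (`IsPluri`: a function of `N` rational vector fields which is multiplied by `det B ^ m` under
a linear substitution `B`) whose order on the vector fields which are regular at `P` is at least `j`
times the order of one of the functions in `S`, for all prime divisors `P` over `X` (all divisorial
places `P` of `K`). Here `A` is the divisor which is generated by the finite set `S` of functions;
`A = 0` if `S = {1}`. -/
def IsSection {K : Type} [Field K] [Algebra ℂ K] (N : ℕ) (S : Finset K) (m j : ℕ)
    (ω : (Fin N → Derivation ℂ K K) → K) : Prop :=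
  IsPluri m ω ∧ ∀ P : Place ℂ K, Divisorial N P → ∀ D : Fin N → Derivation ℂ K K,
    (∀ c, DerReg P (D c)) → ω D = 0 ∨ ∃ s ∈ S, s ≠ 0 ∧ j * P.ord s ≤ P.ord (ω D)

variable (N : ℕ) (K : Type) [Field K] [Algebra ℂ K]

/-- `h⁰ (m K_X + A) ≥ M`: there are `M` linearly independent sections. -/
def SectionsGe (S : Finset K) (m M : ℕ) : Prop :=
  ∃ ω : Fin M → (Fin N → Derivation ℂ K K) → K, LinearIndependent ℂ ω ∧
    ∀ b, IsSection N S m 1 (ω b)

/-- The image of the `m`-canonical map of `X` has dimension at least `h`: there are sections of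
`m K_X` whose ratios contain `h` algebraically independent functions. -/
def ImageDimGe (m h : ℕ) : Prop :=
  ∃ ω : Fin (h + 1) → (Fin N → Derivation ℂ K K) → K, (∀ b, IsSection N {1} m 1 (ω b)) ∧
    ∃ D, ω 0 D ≠ 0 ∧ AlgebraicIndependent ℂ (fun b : Fin h => ω b.succ D / ω 0 D)

/-- `K_X` is pseudo-effective: there is a divisor `A` such that for all `M` a positive multiple of
`M K_X + A` is effective. -/
def Pseudoeffective : Prop :=
  ∃ S : Finset K, ∀ M : ℕ, ∃ j : ℕ, 1 ≤ j ∧ ∃ ω : (Fin N → Derivation ℂ K K) → K, ω ≠ 0 ∧
    IsSection N S (j * M) j ω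

end sections

theorem weight_eq {r : ℕ} {n d : Fin r → ℕ} (hd : ∀ i, 1 ≤ d i) (v : Fin r → ℕ) :
    weight n d v = ∑ i, (((d i : ℚ) - n i - 1) / d i) * v i := by
  unfold weight
  refine Finset.sum_congr rfl fun i _ => ?_
  have h1 : (d i : ℚ) ≠ 0 := by
    have := hd i
    exact_mod_cast (by omega : d i ≠ 0)
  congr 1
  field_simp
  ring

/-- **Explicit plurigenera.** Let `X` be a projective manifold birational to an abelian cover of
the product of the projective `n i`-spaces which is branched along smooth hypersurfaces `F i = 0` of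
the factors (that is, to a quotient of the product of the cyclic hypersurfaces `w ^ (d i) = F i` by a
group of diagonal automorphisms), and let `K` be the function field of `X`. Let `D ≥ 1` be such that
`d i` divides `D * (n i + 1)` for all `i`, and let `K_X` be pseudo-effective. Then (1)
`P_{j D} (X) ≥ ∏ i ∈ big, (n i + ⌊j / (D + 1)⌋).choose (n i)` for all `j ≥ 0`; (2) for `j ≥ D + 1` the
image of the `j D`-canonical map has dimension at least `κ = ∑ i ∈ big, n i`; (3) for every `A` there
is `C` with `h⁰ (m K_X + A) ≤ C * m ^ κ` for all `m ≥ 1`. -/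
theorem result (r N R : ℕ) (n d : Fin r → ℕ) (hr : 1 ≤ r) (hn : ∀ i, 1 ≤ n i)
    (hd : ∀ i, 1 ≤ d i) (hN : N = ∑ i, n i)
    (F : ∀ i, MvPolynomial (Fin (n i + 1)) ℂ) (hF : ∀ i, (F i).IsHomogeneous (d i))
    (hs : ∀ i, Smooth (F i)) (m : Fin R → ℕ) (hm : ∀ j, 1 ≤ m j) (a : Fin R → Fin r → ℕ)
    (hdiv : ∀ j i, m j ∣ a j i * d i)
    (K : Type) [Field K] [Algebra ℂ K] (x : ∀ i, Fin (n i + 1) → K) (hx0 : ∀ i, x i 0 ≠ 0)
    (hbas : IsTranscendenceBasis ℂ (affine x)) (z : Fin R → K)
    (hz : ∀ j, z j ^ m j = ∏ i, (aeval (x i) (F i) / x i 0 ^ d i) ^ a j i)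
    (hgen : IntermediateField.adjoin ℂ (Set.range (affine x) ∪ Set.range z) = ⊤)
    (D : ℕ) (hD : 1 ≤ D) (hdD : ∀ i, d i ∣ D * (n i + 1)) (hps : Pseudoeffective N K) :
    (∀ j : ℕ, SectionsGe N K {1} (j * D)
      (∏ i ∈ big m a n d, (n i + j / (D + 1)).choose (n i))) ∧
    (∀ j : ℕ, D + 1 ≤ j → ImageDimGe N K (j * D) (∑ i ∈ big m a n d, n i)) ∧
    ∀ S : Finset K, ∃ C : ℕ, ∀ k M : ℕ, 1 ≤ k → SectionsGe N K S k M →
      M ≤ C * k ^ (∑ i ∈ big m a n d, n i) := by
  classical
  obtain ⟨h1, -, h3⟩ := Pool.Agent.Y169.CH.main hr hn hN hd hF hs hx0 hbas hm hdiv hz hgen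
    (big m a n d) (fun i => by
      simp only [big, Finset.mem_filter, Finset.mem_univ, true_and, weight_eq hd]
      exact Iff.rfl)
  have hpos := h1.1 hps
  obtain ⟨h4, h5⟩ := Pool.Agent.H172.EI.pm hr hn hN hd hF hs hx0 hbas hm hdiv hz hgen hpos
    (big m a n d) (fun i hi v hv hw => by
      simp only [big, Finset.mem_filter, Finset.mem_univ, true_and] at hi
      exact hi v hv (by rw [weight_eq hd]; exact hw)) hD hdD
  refine ⟨fun j => ?_, fun j hj => ?_, fun S => (h3 hpos).2 S⟩
  · obtain ⟨ω, hω, hsec⟩ := h4 j (j / (D + 1)) (Nat.div_mul_le_self j (D + 1))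
    have hcard : Fintype.card (∀ i : {i // i ∈ big m a n d}, Sym (Fin (n i + 1)) (j / (D + 1))) =
        ∏ i ∈ big m a n d, (n i + j / (D + 1)).choose (n i) := by
      rw [Fintype.card_pi, ← Finset.prod_coe_sort (big m a n d)
        (fun i => (n i + j / (D + 1)).choose (n i))]
      refine Finset.prod_congr rfl fun i _ => ?_
      rw [Sym.card_sym_fin_eq_multichoose, Nat.multichoose_eq, Nat.choose_symm_add]
      generalize j / (D + 1) = k
      congr 1
      omega
    let eq := Fintype.equivFinOfCardEq hcard
    exact ⟨fun b => ω (eq.symm b), hω.comp _ eq.symm.injective, fun b => hsec _⟩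
  · have hcard : Fintype.card ((i : {i // i ∈ big m a n d}) × Fin (n i)) =
        ∑ i ∈ big m a n d, n i := by
      rw [Fintype.card_sigma, ← Finset.sum_coe_sort (big m a n d) (fun i => n i)]
      exact Finset.sum_congr rfl fun i _ => Fintype.card_fin _
    let eq := Fintype.equivFinOfCardEq hcard
    have hinj : Function.Injective (fun b : (i : {i // i ∈ big m a n d}) × Fin (n i) =>
        (⟨b.1.1, b.2⟩ : (i : Fin r) × Fin (n i))) := by
      rintro ⟨⟨i, hi⟩, l⟩ ⟨⟨i', hi'⟩, l'⟩ h
      obtain ⟨h7, h8⟩ := Sigma.mk.inj_iff.1 h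
      dsimp only at h7
      subst h7
      have h9 : l = l' := eq_of_heq h8
      rw [h9]
    exact h5 j _ _ (hinj.comp eq.symm.injective) (fun b => (eq.symm b).1.2) hj

end Pool.Agent.Results.MP_813db1_ag.HypersurfacePlurigenera
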