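import Pool.Agent.Q171.RC.Kappa
import Pool.Agent.Q171.RC.GenM

/-!
# Kodaira dimension, uniruledness, and entire curves with small coefficients

We consider points of a complex projective variety `X` which lie on curves of one of three kinds, given
by `s` iterated linear differential equations with matrices of size `r` and polynomials of degree at
most `e`: there are invertible matrices `X_1(z), ..., X_s(z)` of size `r` of analytic functions on a
domain `Ω` such that the entries of `X_l'(z) X_l(z)⁻¹` are polynomials of degree at most `e` in each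
variable in the entries of `X_i(z)`, `X_i(z)⁻¹`, `i < l`, and the homogeneous coordinates of `f(z)` are
such polynomials in the entries of all these matrices (`MVec Ω M s r e f`); the coefficients of these
polynomials are in a ring `M` of analytic functions on `Ω`.

(a) `f : ℂ → X` is a nonconstant entire curve, given on some domain by such equations with SMALL
coefficients: meromorphic functions `a` on the plane with `T(r, a^(k)) = o(T(r, f))` for all `k`;

(b) `f : ℂ → X` is an entire curve, given on some domain by such equations with meromorphic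
coefficients with periods `L`, for a subgroup `L` of the plane, which is not invariant under a
subgroup of `L` of index at most `δ`;

(c) `f : Ω → X` is given by such equations over any ring `M` of analytic functions on `Ω` which contains
the constants and is closed under differentiation, and the quotients of the coordinates of `f` are not
all algebraic of degree at most `δ` over `M`.

For all `N`, `D`, `s`, `r`, `e` there are numbers `δ` and `E` such that the following holds for ALL
complex projective varieties `X` in projective `N`-space which are given by forms of degree at most `D`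
(`X` is the variety of the ideal `p`, with the function field `K`, the generic point `y` and the
dimension `w`). Assume that for each hypersurface of degree at most `E` which does not contain `X` there
is a point of `X`, outside of the hypersurface, on a curve of one of these kinds. Then

(1) EVERY point of `X` lies on a nonconstant rational curve of degree at most `δ` on `X`, so `X` is
uniruled;

(2) the Kodaira dimension of `X` is `-∞`: for all `m > 0` the only rational `m`-canonical form which is
regular at all prime divisors of all models of `X` is zero.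
-/

set_option autoImplicit false

namespace Pool.Agent.Results.MP_813db1_ag.SmallCurvesUniruled

open MvPolynomial Pool.Agent.Q139.EG Pool.Agent.Q171.RC
open Pool.Agent.Q139.EB (OnV)
open Pool.Agent.TH143.GT (FunField)
open Pool.Agent.TH143.EL (HolMap Rep)
open scoped LinearAlgebra.Projectivization

/-- The point `x` lies on a curve of one of the kinds (a), (b), (c) on the projective variety of the
forms in `S`. -/
def OnCurve {N : ℕ} (S : Set (MvPolynomial (Fin (N + 1)) ℂ)) (s r e δ : ℕ)
    (x : ℙ ℂ (Fin (N + 1) → ℂ)) : Prop :=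
  (∃ f : ℂ → ℙ ℂ (Fin (N + 1) → ℂ), HolMap f ∧ OnV S f ∧ (∃ z w, f z ≠ f w) ∧
    SmallCurve s r e f ∧ ∃ z, f z = x) ∨
  (∃ (L : AddSubgroup ℂ) (f : ℂ → ℙ ℂ (Fin (N + 1) → ℂ)), HolMap f ∧ OnV S f ∧
    PerCurve L s r e f ∧ (∀ Λ : AddSubgroup L, Λ.index ≠ 0 → Λ.index ≤ δ →
      ∃ l ∈ Λ, ∃ z, f (z + (l : ℂ)) ≠ f z) ∧ ∃ z, f z = x) ∨
  ∃ (Ω : Set ℂ) (M : Set (ℂ → ℂ)) (f : ℂ → Fin (N + 1) → ℂ), IsOpen Ω ∧ IsPreconnected Ω ∧
    CRing Ω M ∧ MVec Ω M s r e f ∧ (∀ z ∈ Ω, ∀ F ∈ S, eval (f z) F = 0) ∧
    (∃ u v, ¬ AlgM Ω M δ (fun z => f z u) fun z => f z v) ∧ ∃ z ∈ Ω, Rep x (f z)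

theorem result (N D s r e : ℕ) : ∃ δ E : ℕ,
    ∀ (p : Ideal (MvPolynomial (Fin (N + 1)) ℂ)) (K : Type) [Field K] [Algebra ℂ K] (w : ℕ)
      (y : Fin (N + 1) → K), FunField p 1 K w y → GivenBy p D →
    (∀ G : MvPolynomial (Fin (N + 1)) ℂ, (∃ k, k ≤ E ∧ G.IsHomogeneous k) →
      (∃ x, (∀ F ∈ p, (∃ k, F.IsHomogeneous k) → eval x F = 0) ∧ eval x G ≠ 0) →
      ∃ x : ℙ ℂ (Fin (N + 1) → ℂ),
        OnCurve {F | F ∈ p ∧ ∃ k, F.IsHomogeneous k} s r e δ x ∧ eval x.rep G ≠ 0) →
    (∀ x : Fin (N + 1) → ℂ, x ≠ 0 → (∀ F ∈ p, (∃ k, F.IsHomogeneous k) → eval x F = 0) →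
      OnR p δ x) ∧ KappaNeg K w := by
  obtain ⟨δ1, hδ1⟩ := small_locus N D s r e
  obtain ⟨δ2, hδ2⟩ := per_locus N D s r e
  obtain ⟨δ3, hδ3⟩ := gen_locus N D s r e
  let δ := max δ1 (max δ2 δ3)
  obtain ⟨E, hE⟩ := cover_of_dense N D δ
  refine ⟨δ, E, fun p K _ _ w y hy hD hdense => ?_⟩
  have hmono : ∀ {δ' : ℕ} {x : Fin (N + 1) → ℂ}, δ' ≤ δ → OnRat (formsLe p D) δ' x →
      OnRat (formsLe p D) δ x := by
    rintro δ' x hle ⟨P, h1, h2, h3, h4⟩
    exact ⟨P, h1, fun j => (h2 j).trans hle, h3, h4⟩
  have hsub : formsLe p D ⊆ {F | F ∈ p ∧ ∃ k, F.IsHomogeneous k} := by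
    rintro F ⟨hF, k, -, hk⟩
    exact ⟨hF, k, hk⟩
  have hcov := hE p hD fun G hG hGX => by
    obtain ⟨x, hx, hxG⟩ := hdense G hG hGX
    rcases hx with ⟨f, hf, hfX, hnc, hs, z, hz⟩ | ⟨L, f, hf, hfX, hP, hninv, z, hz⟩ |
      ⟨Ω, M, f, hΩ, hΩc, hM, hf, hfX, ⟨u, v, hna⟩, z, hz, hr⟩
    · refine ⟨x.rep, x.rep_nonzero, (onR_iff hD δ _).1 ?_, hxG⟩
      rw [← hz]
      exact hmono (le_max_left _ _) (hδ1 (formsLe p D) (fun F hF => hF.2) f hf
        (fun z F hF => hfX z F (hsub hF)) hnc hs z)
    · refine ⟨x.rep, x.rep_nonzero, (onR_iff hD δ _).1 ?_, hxG⟩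
      rcases hδ2 (formsLe p D) (fun F hF => hF.2) L f hf (fun z F hF => hfX z F (hsub hF)) hP
        with h1 | ⟨Λ, h1, h2, h3⟩
      · rw [← hz]
        exact hmono ((le_max_left _ _).trans (le_max_right _ _)) (h1 z)
      · obtain ⟨l, hl, z', hz'⟩ := hninv Λ h1
          (h2.trans ((le_max_left _ _).trans (le_max_right _ _)))
        exact absurd (h3 l hl z') hz'
    · obtain ⟨k, -, hk⟩ := hG
      refine ⟨f z, hr.1, (onR_iff hD δ _).1 ?_, fun h0 =>
        hxG ((Pool.Agent.Q139.EB.rep_eval hr ⟨k, hk⟩).2 h0)⟩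
      rcases hδ3 (formsLe p D) (fun F hF => hF.2) Ω hΩ hΩc M hM f hf
        (fun z hz F hF => hfX z hz F (hsub hF)) with h1 | h1
      · exact hmono ((le_max_right _ _).trans (le_max_right _ _)) (h1 z hz hr.1)
      · exact absurd ((h1 u v).mono (hM.const 0) ((le_max_right _ _).trans (le_max_right _ _)))
          hna
  exact ⟨hcov, kappa_of_cover hy hD hcov⟩

end Pool.Agent.Results.MP_813db1_ag.SmallCurvesUniruled
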